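import Pool.Agent.helper14.FTNP.Example

/-!
# A finite, fully transitive, equivelar self-dual polyhedron without polarity
-/

set_option autoImplicit false

namespace Pool.Agent.Results.MP_1940b6_co.FullyTransitiveNoPolarity

open Pool.Agent.helper14.FTNP

/-- There is a finite equivelar self-dual polyhedron, of type `{10, 10}` and even fully
transitive, that possesses no polarity. -/
theorem result : ∃ (P : Type) (_ : Fintype P) (_ : PartialOrder P) (rk : P → ℤ),
    IsPolyhedron rk ∧ IsEquivelar rk 10 10 ∧ IsFullyTransitive rk ∧
    (∃ δ : Equiv.Perm P, IsDuality δ) ∧ ¬ ∃ δ : Equiv.Perm P, IsPolarity δ :=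
  ⟨Face, inferInstance, inferInstance, rk, example_polyhedron, example_equivelar,
    example_fullyTransitive, ⟨dual, example_selfDual⟩, example_noPolarity⟩

end Pool.Agent.Results.MP_1940b6_co.FullyTransitiveNoPolarity
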